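import Pool.Agent.V5helper5.AI.Lat2

/-!
# Isometries of integral lattices with few negative squares: the companion
-/

set_option autoImplicit false

open Matrix Polynomial Module Filter Topology
open Pool.Agent.H261R2.CM
open Pool.Agent.TH845.KN (BC)

namespace Pool.Agent.V5helper5.AI

noncomputable section

variable {n : ℕ} {S A : Matrix (Fin n) (Fin n) ℤ} {e : Fin n → ℤ}

theorem cm_real (A : Matrix (Fin n) (Fin n) ℤ) : (cm A).map (starRingEnd ℂ) = cm A := by
  ext i j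
  simp [cm]

theorem cm_isom (hA : Aᵀ * S * A = S) : (cm A)ᵀ * cm S * cm A = cm S := by
  have h1 : cm (Aᵀ * S * A) = cm S := by rw [hA]
  rw [cm_mul, cm_mul] at h1
  have h2 : cm Aᵀ = (cm A)ᵀ := by
    ext i j; simp [cm]
  rwa [h2] at h1

theorem cm_det (hdet : S.det ≠ 0) : (cm S).det ≠ 0 := by
  unfold cm
  rw [← RingHom.mapMatrix_apply, ← RingHom.map_det]
  simpa using hdet

theorem w_eq (hS : S.IsSymm) : cm S *ᵥ cv' e = cv' e ᵥ* cm S := by
  have h : (cm S)ᵀ = cm S := by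
    ext i j
    simp only [cm, transpose_apply, Matrix.map_apply]
    rw [hS.apply i j]
  nth_rewrite 1 [← h]
  rw [mulVec_transpose]

/-- the reflection -/
theorem refl_isom (hS : S.IsSymm) (hs : nrm S e ≠ 0) :
    (1 - (2 / (nrm S e : ℂ)) • vecMulVec (cv' e) (cv' e ᵥ* cm S))ᵀ * cm S *
      (1 - (2 / (nrm S e : ℂ)) • vecMulVec (cv' e) (cv' e ᵥ* cm S)) = cm S := by
  have hs' : (nrm S e : ℂ) ≠ 0 := by exact_mod_cast hs
  set w := cv' e ᵥ* cm S with hw
  set t : ℂ := 2 / (nrm S e : ℂ) with ht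
  have hwe : w ⬝ᵥ cv' e = (nrm S e : ℂ) := by
    rw [hw, ← dotProduct_mulVec, nrm_cast]
    push_cast; rfl
  have h1 : cm S * vecMulVec (cv' e) w = vecMulVec w w := by
    rw [mul_vecMulVec, w_eq hS]
  have h2 : vecMulVec w (cv' e) * cm S = vecMulVec w w := by
    rw [vecMulVec_mul]
  have h3 : vecMulVec w w * vecMulVec (cv' e) w = (nrm S e : ℂ) • vecMulVec w w := by
    rw [vecMulVec_mul_vecMulVec, hwe]
    ext i j
    simp only [vecMulVec_apply, Pi.smul_apply, Matrix.smul_apply, smul_eq_mul]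
    ring
  rw [transpose_sub, transpose_one, transpose_smul, transpose_vecMulVec, Matrix.sub_mul, one_mul,
    Matrix.smul_mul, h2, Matrix.mul_sub, mul_one, Matrix.sub_mul, Matrix.mul_smul, h1,
    Matrix.smul_mul, Matrix.mul_smul, h3, smul_smul, smul_smul]
  have h4 : t * t * (nrm S e : ℂ) = t + t := by
    rw [ht]; field_simp; ring
  rw [h4, add_smul]
  abel

theorem refl_det (hs : nrm S e ≠ 0) :
    (1 - (2 / (nrm S e : ℂ)) • vecMulVec (cv' e) (cv' e ᵥ* cm S)).det = -1 := by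
  have hs' : (nrm S e : ℂ) ≠ 0 := by exact_mod_cast hs
  set w := cv' e ᵥ* cm S with hw
  have hwe : w ⬝ᵥ cv' e = (nrm S e : ℂ) := by
    rw [hw, ← dotProduct_mulVec, nrm_cast]
    push_cast; rfl
  have h1 : (1 + vecMulVec (cv' e) w).det = 1 + (nrm S e : ℂ) := by
    have := det_one_add_replicateCol_mul_replicateRow (ι := Unit) (cv' e) w
    rwa [← Matrix.vecMulVec_eq, hwe] at this
  rw [sub_eq_add_neg, ← neg_smul, det_rank1, det_one, h1]
  field_simp
  ring

theorem refl_real : (1 - (2 / (nrm S e : ℂ)) • vecMulVec (cv' e) (cv' e ᵥ* cm S)).map (starRingEnd ℂ) =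
    1 - (2 / (nrm S e : ℂ)) • vecMulVec (cv' e) (cv' e ᵥ* cm S) := by
  rw [← cv_vecMul]
  ext i j
  simp only [Matrix.map_apply, Matrix.sub_apply, Matrix.smul_apply, vecMulVec_apply, smul_eq_mul, cv', map_sub,
    map_mul, map_div₀, map_ofNat, map_intCast, Matrix.one_apply]
  split_ifs <;> simp

/-- the real part of `F conj N` vanishes on the unit circle -/
theorem circle (hS : S.IsSymm) (hdet : S.det ≠ 0) (hA : Aᵀ * S * A = S) (hs : nrm S e ≠ 0)
    (z : ℂ) (hz : ‖z‖ = 1) :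
    max ‖aeval z A.charpoly‖ ‖aeval z (NN S A e)‖ ≤
      2 * ‖(-(1 / 2) : ℂ) * aeval z A.charpoly + 1 * aeval z (NN S A e)‖ := by
  have hz0 : z ≠ 0 := by
    intro h; rw [h, norm_zero] at hz; exact zero_ne_one hz
  set F : ℂ := aeval z A.charpoly with hF
  set N : ℂ := aeval z (NN S A e) with hN
  have eF : F = (cm A).charpoly.eval z := by
    rw [hF, ← eval_toC, toC_charpoly]
  have eN : N = (nrm S e : ℂ) * (reflected S A e).charpoly.eval z := by
    rw [hN, ← eval_toC, NN_reflected S A e hs, eval_mul, eval_C]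
  have r1 := reciprocity (cm S) (cm A) (cm_det hdet) (cm_isom hA) (cm_real A) z hz
  have hmap : (reflected S A e).map (starRingEnd ℂ) = reflected S A e := by
    unfold reflected
    rw [Matrix.map_mul, refl_real, cm_real]
  have hisom : (reflected S A e)ᵀ * cm S * reflected S A e = cm S := by
    unfold reflected
    rw [transpose_mul]
    have h1 := refl_isom (S := S) (e := e) hS hs
    have h2 := cm_isom (S := S) hA
    calc _ = (cm A)ᵀ * ((1 - (2 / (nrm S e : ℂ)) • vecMulVec (cv' e) (cv' e ᵥ* cm S))ᵀ * cm S *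
        (1 - (2 / (nrm S e : ℂ)) • vecMulVec (cv' e) (cv' e ᵥ* cm S))) * cm A := by
          simp only [Matrix.mul_assoc]
      _ = _ := by rw [h1, h2]
  have r2 := reciprocity (cm S) (reflected S A e) (cm_det hdet) hisom hmap z hz
  have hdr : (reflected S A e).det = -(cm A).det := by
    unfold reflected
    rw [det_mul, refl_det hs]; ring
  rw [hdr] at r2
  rw [← eF] at r1
  have r3 : -(cm A).det * N = (-1) ^ n * z ^ n * (starRingEnd ℂ) N := by
    rw [eN, map_mul, map_intCast]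
    linear_combination (nrm S e : ℂ) * r2
  set c : ℂ := (-1) ^ n * z ^ n with hc
  have hc0 : c ≠ 0 := mul_ne_zero (pow_ne_zero _ (by norm_num)) (pow_ne_zero _ hz0)
  have h0 : F * (starRingEnd ℂ) N + (starRingEnd ℂ) F * N = 0 := by
    apply mul_left_cancel₀ hc0
    linear_combination (-F) * r3 + (-N) * r1
  have h1 : (F * (starRingEnd ℂ) N).re = 0 := by
    have h2 : (starRingEnd ℂ) F * N = (starRingEnd ℂ) (F * (starRingEnd ℂ) N) := by
      rw [map_mul, Complex.conj_conj]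
    rw [h2] at h0
    have h3 := congrArg Complex.re h0
    rw [Complex.add_re, Complex.conj_re, Complex.zero_re] at h3
    linarith
  have h2 : ‖(-(1 / 2) : ℂ) * F + 1 * N‖ ^ 2 = ‖F‖ ^ 2 / 4 + ‖N‖ ^ 2 := by
    rw [← Complex.normSq_eq_norm_sq, ← Complex.normSq_eq_norm_sq, ← Complex.normSq_eq_norm_sq,
      Complex.normSq_add, Complex.normSq_mul, one_mul]
    have h3 : ((-(1 / 2) : ℂ) * F * (starRingEnd ℂ) N).re = 0 := by
      have : (-(1 / 2) : ℂ) * F * (starRingEnd ℂ) N = ((-(1 / 2) : ℝ) : ℂ) * (F * (starRingEnd ℂ) N) := by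
        push_cast; ring
      rw [this, Complex.re_ofReal_mul, h1, mul_zero]
    rw [h3]
    have h4 : Complex.normSq (-(1 / 2) : ℂ) = 1 / 4 := by
      rw [Complex.normSq_eq_norm_sq, norm_neg, norm_div, norm_one]
      norm_num
    rw [h4]
    ring
  have hP := norm_nonneg ((-(1 / 2) : ℂ) * F + 1 * N)
  apply max_le
  · apply le_of_sq_le_sq _ (by positivity)
    nlinarith [sq_nonneg ‖N‖]
  · apply le_of_sq_le_sq _ (by positivity)
    nlinarith [sq_nonneg ‖F‖, sq_nonneg ‖N‖]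

theorem innerWeight_le (P : ℂ[X]) (k : ℕ)
    (h : (P.roots.filter (fun w => ‖w‖ < 1)).card ≤ k) : innerWeight P ≤ 2 ^ k := by
  have h1 : innerWeight P ≤ 2 ^ (P.roots.filter (fun w => ‖w‖ < 1)).card := by
    unfold innerWeight
    generalize P.roots.filter (fun w => ‖w‖ < 1) = s
    induction s using Multiset.induction_on with
    | empty => simp
    | cons a s ih =>
      simp only [Multiset.map_cons, Multiset.prod_cons, Multiset.card_cons, pow_succ']
      have h2 : 0 < max ‖a‖ (1/2) := lt_of_lt_of_le (by norm_num) (le_max_right _ _)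
      have h3 : (max ‖a‖ (1/2))⁻¹ ≤ 2 := by
        rw [inv_le_comm₀ h2 (by norm_num)]
        refine le_trans (by norm_num) (le_max_right _ _)
      apply mul_le_mul h3 ih _ (by norm_num)
      apply Multiset.prod_nonneg
      intro x hx
      obtain ⟨b, _, rfl⟩ := Multiset.mem_map.1 hx
      positivity
  exact h1.trans (pow_le_pow_right₀ (by norm_num) h)

theorem qf_isom (hA : Aᵀ * S * A = S) (x : Fin n → ℂ) : qf (cm S) (cm A *ᵥ x) = qf (cm S) x := by
  unfold qf
  congr 1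
  have h1 : (cm A)ᴴ = (cm A)ᵀ := by
    ext i j; simp [cm]
  rw [star_mulVec, h1, ← dotProduct_mulVec, mulVec_mulVec, mulVec_mulVec]
  have h2 := cm_isom (S := S) hA
  rw [Matrix.mul_assoc] at h2
  first
  | rw [h2]
  | rw [cm_isom hA]

theorem weight (hS : S.IsSymm) (hdet : S.det ≠ 0) (hA : Aᵀ * S * A = S) :
    innerWeight (C (-(1 / 2) : ℂ) * toC A.charpoly + C 1 * toC (NN S A e)) ≤
      2 ^ (negSquares S) := by
  apply innerWeight_le
  rw [P_eq, roots_C_mul _ (half_ne _), ← negSquares_eq hS hdet]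
  apply inner_count (cm_herm hS)
  intro x
  set s : ℝ := (nrm S e : ℝ) with hs
  set t : ℝ := 2 / (s - 1 / 2) with ht
  have hs2 : s - 1 / 2 ≠ 0 := by
    intro h0
    apply half_ne (nrm S e)
    have : ((s - 1 / 2 : ℝ) : ℂ) = 0 := by rw [h0]; simp
    rw [hs] at this
    push_cast at this
    exact this
  have htc : (2 / ((nrm S e : ℂ) - 1 / 2)) = (t : ℂ) := by
    rw [ht, hs]; push_cast; rfl
  have h1 : ((1 - (2 / ((nrm S e : ℂ) - 1 / 2)) • vecMulVec (cv' e) (cv' e ᵥ* cm S)) * cm A) *ᵥ x =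
      cm A *ᵥ x - ((t : ℂ) * (cv' e ⬝ᵥ (cm S *ᵥ (cm A *ᵥ x)))) • cv' e := by
    rw [htc, ← mulVec_mulVec, sub_mulVec, one_mulVec, smul_mulVec, vecMulVec_mulVec,
      ← dotProduct_mulVec]
    congr 1
    ext i
    simp only [Pi.smul_apply, smul_eq_mul, MulOpposite.smul_eq_mul_unop, MulOpposite.unop_op]
    ring
  rw [h1, qf_rank1 (cm S) (cm_herm hS) (cv' e) (by ext i; simp [cv']) t s (nrm_cast S e), qf_isom hA]
  have h2 : 2 * t - t ^ 2 * s = -(2 / (s - 1 / 2) ^ 2) := by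
    rw [ht]; field_simp; ring
  rw [h2]
  have h3 : 0 ≤ 2 / (s - 1 / 2) ^ 2 * ‖cv' e ⬝ᵥ (cm S *ᵥ (cm A *ᵥ x))‖ ^ 2 := by positivity
  linarith

/-- the measures of the isometries of lattices with few negative squares -/
def LatM (κ : ℝ → ℝ) : Set ℝ := {x : ℝ | ∃ (n : ℕ) (S A : Matrix (Fin n) (Fin n) ℤ) (e : Fin n → ℤ),
  S.IsSymm ∧ S.det ≠ 0 ∧ Aᵀ * S * A = S ∧ (negSquares S : ℝ) ≤ κ x ∧ nrm S e ≠ 0 ∧
  |(nrm S e : ℝ)| ≤ κ x ∧ (reflected S A e).charpoly.mahlerMeasure ≤ κ x ∧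
  (∀ z : ℂ, 1 < ‖z‖ → (cm A).charpoly.eval z ≠ 0 ∨ (reflected S A e).charpoly.eval z ≠ 0) ∧
  x = (cm A).charpoly.mahlerMeasure}

/-- the new bound -/
def kap (κ : ℝ → ℝ) (x : ℝ) : ℝ := 2 + (max (κ x) 0) ^ 2 + (2 : ℝ) ^ (max (κ x) 0)

theorem kap_mono {κ : ℝ → ℝ} (hκ : Monotone κ) : Monotone (kap κ) := by
  intro a b hab
  have h1 : max (κ a) 0 ≤ max (κ b) 0 := max_le_max (hκ hab) le_rfl
  have h2 : 0 ≤ max (κ a) 0 := le_max_right _ _
  unfold kap
  have h3 : (max (κ a) 0) ^ 2 ≤ (max (κ b) 0) ^ 2 := pow_le_pow_left₀ h2 h1 2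
  have h4 : (2 : ℝ) ^ (max (κ a) 0) ≤ (2 : ℝ) ^ (max (κ b) 0) :=
    Real.rpow_le_rpow_of_exponent_le (by norm_num) h1
  linarith

theorem LatM_sub (κ : ℝ → ℝ) : LatM κ ⊆ AIM (kap κ) := by
  rintro x ⟨n, S, A, e, hS, hdet, hA, hneg, hs, hsκ, hM, hcom, hx⟩
  have hκ0 : 0 ≤ κ x := le_trans (Nat.cast_nonneg _) hneg
  have hmax : max (κ x) 0 = κ x := max_eq_left hκ0
  have hkap : kap κ x = 2 + κ x ^ 2 + (2 : ℝ) ^ (κ x) := by rw [kap, hmax]
  have hp : 0 ≤ (2 : ℝ) ^ (κ x) := by positivity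
  have hsC : (nrm S e : ℂ) ≠ 0 := by exact_mod_cast hs
  have hNN : toC (NN S A e) ≠ 0 := by
    rw [NN_reflected S A e hs]
    exact mul_ne_zero (C_ne_zero.2 hsC) (charpoly_monic _).ne_zero
  refine ⟨A.charpoly, NN S A e, -(1 / 2), 1, (charpoly_monic _).ne_zero, ?_, ?_, ?_, ?_, ?_, ?_, ?_, ?_⟩
  · intro h0
    apply hNN
    rw [h0]
    simp [toC]
  · rw [norm_neg, norm_div, norm_one]; norm_num
  · simp
  · intro z hz
    refine (circle hS hdet hA hs z hz).trans ?_
    apply mul_le_mul_of_nonneg_right _ (norm_nonneg _)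
    rw [hkap]
    nlinarith [sq_nonneg (κ x)]
  · refine (weight hS hdet hA).trans ?_
    rw [hkap, ← Real.rpow_natCast]
    have h1 : (2 : ℝ) ^ ((negSquares S : ℕ) : ℝ) ≤ (2 : ℝ) ^ (κ x) :=
      Real.rpow_le_rpow_of_exponent_le (by norm_num) hneg
    nlinarith [sq_nonneg (κ x)]
  · unfold m1
    rw [NN_reflected S A e hs, mahlerMeasure_mul, mahlerMeasure_const]
    have h1 : ‖(nrm S e : ℂ)‖ = |(nrm S e : ℝ)| := by
      rw [Complex.norm_intCast]
    rw [h1, hkap]
    have h2 : |(nrm S e : ℝ)| * (reflected S A e).charpoly.mahlerMeasure ≤ κ x * κ x :=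
      mul_le_mul hsκ hM (mahlerMeasure_nonneg _) hκ0
    nlinarith
  · intro z hz
    rcases hcom z hz with h | h
    · left
      rw [← eval_toC, toC_charpoly]; exact h
    · right
      rw [← eval_toC, NN_reflected S A e hs, eval_mul, eval_C]
      exact mul_ne_zero hsC h
  · rw [hx]; unfold m1; rw [toC_charpoly]

end

end Pool.Agent.V5helper5.AI
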