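import Mathlib

/-!
# Eigenvalues of an expansion of an indefinite Hermitian form
-/

set_option autoImplicit false

open Matrix Polynomial Module Filter Topology

namespace Pool.Agent.V5helper5.AI

noncomputable section

variable {n : ℕ}

/-- the value of a Hermitian form -/
def qf (S : Matrix (Fin n) (Fin n) ℂ) (x : Fin n → ℂ) : ℝ := (star x ⬝ᵥ (S *ᵥ x)).re

theorem qf_cont (S : Matrix (Fin n) (Fin n) ℂ) : Continuous (qf S) := by
  unfold qf
  fun_prop

theorem qf_zero (S : Matrix (Fin n) (Fin n) ℂ) : qf S 0 = 0 := by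
  simp [qf]

/-! ### powers on the inner generalised eigenspaces -/

theorem seq_zero {E : Type*} [NormedAddCommGroup E] (a b : ℕ → E) (c : ℝ)
    (hc0 : 0 ≤ c) (hc : c < 1) (hb : Tendsto b atTop (𝓝 0))
    (h : ∀ m, ‖a (m + 1)‖ ≤ c * ‖a m‖ + ‖b m‖) : Tendsto a atTop (𝓝 0) := by
  rw [Metric.tendsto_atTop]
  intro ε hε
  rw [Metric.tendsto_atTop] at hb
  obtain ⟨M, hM⟩ := hb ((1 - c) * (ε / 2)) (by nlinarith)
  have h1 : ∀ j, ‖a (M + j)‖ ≤ c ^ j * ‖a M‖ + ε / 2 := by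
    intro j
    induction j with
    | zero => simp only [add_zero, pow_zero, one_mul]; linarith
    | succ j ih =>
      have h2 := h (M + j)
      have h3 := hM (M + j) (by omega)
      rw [dist_zero_right] at h3
      have h4 : c * ‖a (M + j)‖ ≤ c * (c ^ j * ‖a M‖ + ε / 2) := mul_le_mul_of_nonneg_left ih hc0
      calc ‖a (M + (j + 1))‖ = ‖a (M + j + 1)‖ := by rw [add_assoc]
        _ ≤ c * ‖a (M + j)‖ + ‖b (M + j)‖ := h2
        _ ≤ c * (c ^ j * ‖a M‖ + ε / 2) + (1 - c) * (ε / 2) := by linarith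
        _ = c ^ (j + 1) * ‖a M‖ + ε / 2 := by ring
  have h2 : Tendsto (fun j : ℕ => c ^ j * ‖a M‖) atTop (𝓝 (0 * ‖a M‖)) :=
    (tendsto_pow_atTop_nhds_zero_of_lt_one hc0 hc).mul_const _
  rw [zero_mul, Metric.tendsto_atTop] at h2
  obtain ⟨J, hJ⟩ := h2 (ε / 2) (by linarith)
  refine ⟨M + J, fun m hm => ?_⟩
  rw [dist_zero_right]
  obtain ⟨j, rfl⟩ : ∃ j, m = M + j := ⟨m - M, by omega⟩
  have h3 := hJ j (by omega)
  rw [dist_zero_right, Real.norm_eq_abs] at h3
  have h4 := (le_abs_self _).trans_lt h3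
  have h5 := h1 j
  linarith

theorem tend_aux (B : Matrix (Fin n) (Fin n) ℂ) (μ : ℂ) (hμ : ‖μ‖ < 1) (k : ℕ) :
    ∀ x : Fin n → ℂ, ((toLin' B - algebraMap ℂ (End ℂ (Fin n → ℂ)) μ) ^ k) x = 0 →
      Tendsto (fun m => (B ^ m) *ᵥ x) atTop (𝓝 0) := by
  induction k with
  | zero =>
    intro x hx
    have : x = 0 := by simpa using hx
    subst this
    simp
  | succ k ih =>
    intro x hx
    have h1 := ih ((toLin' B - algebraMap ℂ (End ℂ (Fin n → ℂ)) μ) x) (by
      rw [← End.mul_apply, ← pow_succ]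
      exact hx)
    refine seq_zero _ _ ‖μ‖ (norm_nonneg _) hμ h1 (fun m => ?_)
    have h2 : (B ^ (m + 1)) *ᵥ x = μ • ((B ^ m) *ᵥ x) +
        (B ^ m) *ᵥ ((toLin' B - algebraMap ℂ (End ℂ (Fin n → ℂ)) μ) x) := by
      have h3 : (toLin' B - algebraMap ℂ (End ℂ (Fin n → ℂ)) μ) x = B *ᵥ x - μ • x := by
        simp [Matrix.toLin'_apply, Module.algebraMap_end_apply]
      rw [h3, mulVec_sub, mulVec_smul, pow_succ, ← mulVec_mulVec]
      abel
    rw [h2]
    refine (norm_add_le _ _).trans ?_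
    rw [norm_smul]

theorem tend (B : Matrix (Fin n) (Fin n) ℂ) (μ : ℂ) (hμ : ‖μ‖ < 1) (x : Fin n → ℂ)
    (hx : x ∈ End.maxGenEigenspace (toLin' B) μ) : Tendsto (fun m => (B ^ m) *ᵥ x) atTop (𝓝 0) := by
  rw [End.mem_maxGenEigenspace] at hx
  obtain ⟨k, hk⟩ := hx
  apply tend_aux B μ hμ k x
  rw [← hk]
  congr 2

/-- the vectors whose orbit tends to zero -/
def Z (B : Matrix (Fin n) (Fin n) ℂ) : Submodule ℂ (Fin n → ℂ) where
  carrier := {x | Tendsto (fun m => (B ^ m) *ᵥ x) atTop (𝓝 0)}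
  zero_mem' := by simp
  add_mem' := by
    intro x y hx hy
    have h := Tendsto.add hx hy
    rw [add_zero] at h
    refine h.congr fun m => ?_
    rw [mulVec_add]
  smul_mem' := by
    intro c x hx
    have h := Tendsto.const_smul (M := ℂ) hx c
    rw [smul_zero] at h
    refine h.congr fun m => ?_
    rw [mulVec_smul]

theorem Z_nonpos (S B : Matrix (Fin n) (Fin n) ℂ) (hB : ∀ x, qf S x ≤ qf S (B *ᵥ x))
    (x : Fin n → ℂ) (hx : x ∈ Z B) : qf S x ≤ 0 := by
  have h1 : ∀ m, qf S x ≤ qf S ((B ^ m) *ᵥ x) := by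
    intro m
    induction m with
    | zero => simp
    | succ m ih =>
      refine ih.trans ?_
      rw [pow_succ', ← mulVec_mulVec]
      exact hB _
  have h2 : Tendsto (fun m => qf S ((B ^ m) *ᵥ x)) atTop (𝓝 (qf S 0)) :=
    ((qf_cont S).tendsto 0).comp hx
  rw [qf_zero] at h2
  exact ge_of_tendsto' h2 h1

/-! ### the dimension of nonpositive subspaces -/

theorem qf_diag {S : Matrix (Fin n) (Fin n) ℂ} (hS : S.IsHermitian) (x : Fin n → ℂ) :
    qf S x = ∑ i, hS.eigenvalues i *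
      ‖((star (hS.eigenvectorUnitary : Matrix (Fin n) (Fin n) ℂ)) *ᵥ x) i‖ ^ 2 := by
  set U : Matrix (Fin n) (Fin n) ℂ := (hS.eigenvectorUnitary : Matrix (Fin n) (Fin n) ℂ) with hU
  have h1 : S = U * diagonal (RCLike.ofReal ∘ hS.eigenvalues) * star U := by
    have := hS.spectral_theorem
    rw [Unitary.conjStarAlgAut_apply] at this
    exact this
  unfold qf
  have h2 : star x ⬝ᵥ (S *ᵥ x) =
      star (star U *ᵥ x) ⬝ᵥ (diagonal (RCLike.ofReal ∘ hS.eigenvalues) *ᵥ (star U *ᵥ x)) := by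
    conv_lhs => rw [h1]
    rw [star_mulVec, ← mulVec_mulVec, ← mulVec_mulVec, dotProduct_mulVec, star_eq_conjTranspose,
      conjTranspose_conjTranspose]
  rw [h2]
  simp only [dotProduct, Pi.star_apply, mulVec_diagonal, Function.comp_apply, Complex.re_sum]
  refine Finset.sum_congr rfl fun i _ => ?_
  have h3 : star ((star U *ᵥ x) i) * (((hS.eigenvalues i : ℝ) : ℂ) * (star U *ᵥ x) i) =
      ((hS.eigenvalues i * ‖(star U *ᵥ x) i‖ ^ 2 : ℝ) : ℂ) := by
    have h4 : star ((star U *ᵥ x) i) * ((star U *ᵥ x) i) = ((‖(star U *ᵥ x) i‖ ^ 2 : ℝ) : ℂ) := by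
      rw [mul_comm]
      have := Complex.mul_conj ((star U *ᵥ x) i)
      rw [Complex.normSq_eq_norm_sq] at this
      exact this
    calc star ((star U *ᵥ x) i) * (((hS.eigenvalues i : ℝ) : ℂ) * (star U *ᵥ x) i) =
        ((hS.eigenvalues i : ℝ) : ℂ) * (star ((star U *ᵥ x) i) * (star U *ᵥ x) i) := by ring
      _ = _ := by rw [h4]; push_cast; ring
  have h5 := congrArg Complex.re h3
  rw [Complex.ofReal_re] at h5
  exact h5

theorem neg_dim {S : Matrix (Fin n) (Fin n) ℂ} (hS : S.IsHermitian) {W : Type*} [AddCommGroup W]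
    [Module ℂ W] [FiniteDimensional ℂ W] (T : W →ₗ[ℂ] (Fin n → ℂ)) (hT : Function.Injective T)
    (h : ∀ w, qf S (T w) ≤ 0) :
    finrank ℂ W ≤ (Finset.univ.filter fun i => hS.eigenvalues i ≤ 0).card := by
  by_contra hcon
  push Not at hcon
  set J := {i // hS.eigenvalues i ≤ 0} with hJ
  set U : Matrix (Fin n) (Fin n) ℂ := (hS.eigenvectorUnitary : Matrix (Fin n) (Fin n) ℂ) with hU
  let L : W →ₗ[ℂ] (J → ℂ) := LinearMap.pi fun j =>
    (LinearMap.proj (R := ℂ) (φ := fun _ : Fin n => ℂ) j.1) ∘ₗ (toLin' (star U)) ∘ₗ T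
  have hL : LinearMap.ker L ≠ ⊥ := by
    apply LinearMap.ker_ne_bot_of_finrank_lt
    rw [Module.finrank_pi, Fintype.card_subtype]
    exact hcon
  obtain ⟨w, hw, hw0⟩ := (Submodule.ne_bot_iff _).1 hL
  have h1 : ∀ j : Fin n, hS.eigenvalues j ≤ 0 → (star U *ᵥ T w) j = 0 := by
    intro j hj
    have := congrFun (LinearMap.mem_ker.1 hw) ⟨j, hj⟩
    exact this
  have h2 : T w ≠ 0 := fun h0 => hw0 (hT (by rw [h0, map_zero]))
  have h3 : star U *ᵥ T w ≠ 0 := by
    intro h0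
    apply h2
    have h4 : U * star U = 1 := Unitary.mul_star_self_of_mem hS.eigenvectorUnitary.2
    have h5 : (U * star U) *ᵥ T w = 0 := by rw [← mulVec_mulVec, h0, mulVec_zero]
    rwa [h4, one_mulVec] at h5
  obtain ⟨i, hi⟩ := Function.ne_iff.1 h3
  have h4 := h w
  rw [qf_diag hS] at h4
  have h5 : ∀ j ∈ Finset.univ, 0 ≤ hS.eigenvalues j * ‖(star U *ᵥ T w) j‖ ^ 2 := by
    intro j _
    rcases le_or_gt (hS.eigenvalues j) 0 with hj | hj
    · rw [h1 j hj]; simp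
    · positivity
  have h6 : 0 < hS.eigenvalues i := by
    by_contra hc
    exact hi (h1 i (not_lt.1 hc))
  have h7 : 0 < hS.eigenvalues i * ‖(star U *ᵥ T w) i‖ ^ 2 := by
    have : 0 < ‖(star U *ᵥ T w) i‖ := norm_pos_iff.2 hi
    positivity
  have h8 := Finset.sum_pos' h5 ⟨i, Finset.mem_univ i, h7⟩
  linarith

/-- the number of inner eigenvalues of an expansion -/
theorem inner_count {S : Matrix (Fin n) (Fin n) ℂ} (hS : S.IsHermitian)
    (B : Matrix (Fin n) (Fin n) ℂ) (hB : ∀ x, qf S x ≤ qf S (B *ᵥ x)) :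
    (B.charpoly.roots.filter (fun w => ‖w‖ < 1)).card ≤
      (Finset.univ.filter fun i => hS.eigenvalues i ≤ 0).card := by
  classical
  set M := B.charpoly.roots.filter (fun w => ‖w‖ < 1) with hM
  let p : {μ // μ ∈ M.toFinset} → Submodule ℂ (Fin n → ℂ) :=
    fun μ => End.maxGenEigenspace (toLin' B) μ.1
  have hind : iSupIndep p :=
    (End.independent_maxGenEigenspace (toLin' B)).comp Subtype.coe_injective
  let T : (DirectSum {μ // μ ∈ M.toFinset} (fun i => p i)) →ₗ[ℂ] (Fin n → ℂ) :=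
    DFinsupp.lsum ℕ fun i => (p i).subtype
  have hT : Function.Injective T := hind.dfinsupp_lsum_injective
  have hmem : ∀ w, T w ∈ Z B := by
    intro w
    have h1 : T w ∈ ⨆ i, p i := by
      rw [Submodule.iSup_eq_range_dfinsupp_lsum]
      exact ⟨w, rfl⟩
    have h2 : (⨆ i, p i) ≤ Z B := by
      apply iSup_le
      rintro ⟨μ, hμ⟩ x hx
      have hμ1 : ‖μ‖ < 1 := (Multiset.mem_filter.1 (Multiset.mem_toFinset.1 hμ)).2
      exact tend B μ hμ1 x hx
    exact h2 h1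
  have h1 := neg_dim hS T hT (fun w => Z_nonpos S B hB _ (hmem w))
  rw [Module.finrank_directSum] at h1
  have h2 : ∑ i : {μ // μ ∈ M.toFinset}, finrank ℂ (p i) = M.card := by
    have h3 : ∀ i : {μ // μ ∈ M.toFinset}, finrank ℂ (p i) = M.count i.1 := by
      rintro ⟨μ, hμ⟩
      have hμ1 : ‖μ‖ < 1 := (Multiset.mem_filter.1 (Multiset.mem_toFinset.1 hμ)).2
      show finrank ℂ (End.maxGenEigenspace (toLin' B) μ) = M.count μ
      rw [LinearMap.finrank_maxGenEigenspace_eq, Matrix.charpoly_toLin', hM,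
        Multiset.count_filter_of_pos (p := fun w => ‖w‖ < 1) hμ1, count_roots]
    simp only [h3]
    rw [Finset.sum_coe_sort M.toFinset (fun μ => M.count μ), Multiset.toFinset_sum_count_eq]
  rw [h2] at h1
  exact h1

end

end Pool.Agent.V5helper5.AI
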