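import Pool.Agent.V5helper5.AI.Poi
import Pool.Agent.N317.LS.Main

/-!
# Bounded companions for almost interlacing pairs
-/

set_option autoImplicit false

open Complex Real Polynomial MeasureTheory Metric
open Pool.Agent.H261R2.CM
open Pool.Agent.Y820.LB (one_le_m1 m1_mul)
open Pool.Agent.W242.IM (m1_mem_LL)
open Pool.Agent.TH845.KN (BC BC_monoid)

namespace Pool.Agent.V5helper5.AI

noncomputable section

/-- the product of `1 / max(|w|, 1/2)` over the zeros `w` of `P` in the open unit disc -/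
def innerWeight (P : ℂ[X]) : ℝ :=
  ((P.roots.filter (fun w => ‖w‖ < 1)).map (fun w => (max ‖w‖ (1/2))⁻¹)).prod

theorem logW_eq (P : ℂ[X]) : logW P = Real.log (innerWeight P) ∧ 1 ≤ innerWeight P := by
  unfold logW innerWeight
  generalize hs : P.roots.filter (fun w => ‖w‖ < 1) = s
  have hs1 : ∀ w ∈ s, ‖w‖ < 1 := by
    intro w hw
    rw [← hs] at hw
    exact (Multiset.mem_filter.1 hw).2
  clear hs
  induction s using Multiset.induction_on with
  | empty => simp
  | cons a s ih =>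
    obtain ⟨h1, h2⟩ := ih (fun w hw => hs1 w (Multiset.mem_cons_of_mem hw))
    have ha := hs1 a (Multiset.mem_cons_self a s)
    have h3 : 0 < max ‖a‖ (1/2) := lt_of_lt_of_le (by norm_num) (le_max_right _ _)
    have h4 : max ‖a‖ (1/2) ≤ 1 := max_le ha.le (by norm_num)
    have h5 : 1 ≤ (max ‖a‖ (1/2))⁻¹ := (one_le_inv₀ h3).2 h4
    simp only [Multiset.map_cons, Multiset.sum_cons, Multiset.prod_cons]
    refine ⟨?_, one_le_mul_of_one_le_of_one_le h5 h2⟩
    rw [Real.log_mul (by positivity) (by linarith), Real.log_inv, h1]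

theorem ae_ne_C (P : ℂ[X]) (hP : P ≠ 0) : ∀ᵐ t : ℝ, P.eval (ez t) ≠ 0 := by
  have h1 : (circleMap 0 1 ⁻¹' {z | P.eval z = 0}).Countable :=
    (rootSet_fin P hP).countable.preimage_circleMap 0 one_ne_zero
  have h2 : ((fun t : ℝ => 2 * π * t) ⁻¹' (circleMap 0 1 ⁻¹' {z | P.eval z = 0})).Countable := by
    apply h1.preimage_of_injOn
    intro a _ b _ hab
    have : (2 * π : ℝ) ≠ 0 := by positivity
    exact mul_left_cancel₀ this hab
  filter_upwards [h2.ae_notMem volume] with t ht h0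
  apply ht
  simp only [Set.mem_preimage, Set.mem_setOf_eq]
  rw [← D_ez_eq]
  exact h0

theorem int_log_C (P : ℂ[X]) : IntervalIntegrable (fun t => Real.log ‖P.eval (ez t)‖) volume 0 1 := by
  have h := intervalIntegrable_mahlerMeasure P
  have h2 := h.comp_mul_left (c := 2 * Real.pi)
  have hpi : (2 * Real.pi : ℝ) ≠ 0 := by positivity
  rw [zero_div, div_self hpi] at h2
  have h3 : (fun t => Real.log ‖P.eval (ez t)‖) =
      fun t => Real.log ‖P.eval (circleMap 0 1 (2 * Real.pi * t))‖ := by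
    ext t
    simp only [D_ez_eq]
  rw [h3]
  exact h2

theorem mx1_le_C (F N : ℤ[X]) (hF : F ≠ 0) (P : ℂ[X]) (hP : P ≠ 0) (C : ℝ) (hC : 1 ≤ C)
    (h : ∀ z : ℂ, ‖z‖ = 1 → max ‖(toC F).eval z‖ ‖(toC N).eval z‖ ≤ C * ‖P.eval z‖) :
    mx1 F N ≤ Real.log C + P.logMahlerMeasure := by
  have h1 : mx1 F N ≤ ∫ t in (0:ℝ)..1, (Real.log C + Real.log ‖P.eval (ez t)‖) := by
    unfold mx1
    refine intervalIntegral.integral_mono_ae zero_le_one
      (mx1_intervalIntegrable F N hF)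
      (intervalIntegrable_const.add (int_log_C P)) ?_
    filter_upwards [ae_ne_C P hP, D_ae_ne F hF] with t h2 h3
    have h4 : ‖ez t‖ = 1 := D_norm_ez t
    have h5 := h _ h4
    have h6 : 0 < ‖ev1 F t‖ := norm_pos_iff.2 h3
    rw [← Real.log_mul (by linarith) (norm_ne_zero_iff.2 h2)]
    exact Real.log_le_log (lt_max_of_lt_left h6) h5
  refine h1.trans (le_of_eq ?_)
  rw [intervalIntegral.integral_add intervalIntegrable_const (int_log_C P),
    logMahlerMeasure_def, D_circleAverage (fun z => Real.log ‖P.eval z‖)]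
  simp

theorem eval_toC (F : ℤ[X]) (z : ℂ) : (toC F).eval z = aeval z F := by
  rw [toC, eval_map]; rfl

/-- the height of an almost interlacing pair -/
theorem height (F N : ℤ[X]) (hF : F ≠ 0) (hN : N ≠ 0) (a b : ℂ) (ha : ‖a‖ ≤ 1) (hb : ‖b‖ ≤ 1)
    (C : ℝ) (hC : 1 ≤ C)
    (h : ∀ z : ℂ, ‖z‖ = 1 → max ‖aeval z F‖ ‖aeval z N‖ ≤ C * ‖a * aeval z F + b * aeval z N‖)
    (hW : innerWeight (Polynomial.C a * toC F + Polynomial.C b * toC N) ≤ C) (hM : m1 N ≤ C) :
    mx1 F N ≤ Real.log (max (m1 F) C) + 3 * Real.log 2 + 6 * Real.log C := by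
  set P : ℂ[X] := Polynomial.C a * toC F + Polynomial.C b * toC N with hPdef
  have hev : ∀ z : ℂ, P.eval z = a * aeval z F + b * aeval z N := by
    intro z
    rw [hPdef, eval_add, eval_mul, eval_mul, eval_C, eval_C, eval_toC, eval_toC]
  have hP : P ≠ 0 := by
    intro h0
    obtain ⟨t, ht⟩ := (D_ae_ne F hF).exists
    have h1 := h (ez t) (D_norm_ez t)
    rw [← hev, h0, eval_zero, norm_zero, mul_zero] at h1
    have h2 : ‖aeval (ez t) F‖ ≤ 0 := (le_max_left _ _).trans h1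
    apply ht
    rw [ev1, eval_toC]
    exact norm_le_zero_iff.1 h2
  have h' : ∀ z : ℂ, ‖z‖ = 1 → max ‖(toC F).eval z‖ ‖(toC N).eval z‖ ≤ C * ‖P.eval z‖ := by
    intro z hz
    rw [hev, eval_toC, eval_toC]
    exact h z hz
  have h1 := mx1_le_C F N hF P hP C hC h'
  have hlogC : 0 ≤ Real.log C := Real.log_nonneg hC
  have hlog2 : 0 ≤ Real.log 2 := Real.log_nonneg (by norm_num)
  have hmF : 1 ≤ m1 F := one_le_m1 hF
  have hmN : 1 ≤ m1 N := one_le_m1 hN
  have hF' : toC F ≠ 0 := D_toC_ne F hF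
  have hN' : toC N ≠ 0 := D_toC_ne N hN
  have bF : Real.log (m1 F) ≤ Real.log (max (m1 F) C) :=
    Real.log_le_log (by linarith) (le_max_left _ _)
  have bN : Real.log (m1 N) ≤ Real.log (max (m1 F) C) :=
    Real.log_le_log (by linarith) (hM.trans (le_max_right _ _))
  have lF : (toC F).logMahlerMeasure = Real.log (m1 F) := logMahlerMeasure_eq_log_MahlerMeasure
  have lN : (toC N).logMahlerMeasure = Real.log (m1 N) := logMahlerMeasure_eq_log_MahlerMeasure
  have hbound : P.logMahlerMeasure ≤ Real.log (max (m1 F) C) + 3 * Real.log 2 + 5 * Real.log C := by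
    by_cases ha0 : a = 0
    · have hb0 : b ≠ 0 := by
        rintro rfl
        apply hP
        rw [hPdef, ha0]
        simp
      have : P = Polynomial.C b * toC N := by rw [hPdef, ha0]; simp
      rw [this, logMahlerMeasure_C_mul hb0 hN', lN]
      have : Real.log ‖b‖ ≤ 0 := Real.log_nonpos (norm_nonneg _) hb
      linarith
    by_cases hb0 : b = 0
    · have : P = Polynomial.C a * toC F := by rw [hPdef, hb0]; simp
      rw [this, logMahlerMeasure_C_mul ha0 hF', lF]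
      have : Real.log ‖a‖ ≤ 0 := Real.log_nonpos (norm_nonneg _) ha
      linarith
    have hu : Polynomial.C a * toC F ≠ 0 := mul_ne_zero (C_ne_zero.2 ha0) hF'
    have hv : Polynomial.C b * toC N ≠ 0 := mul_ne_zero (C_ne_zero.2 hb0) hN'
    have k := key hC hP hu hv hPdef.symm (by
      intro z hz
      rw [eval_mul, eval_C, norm_mul]
      refine le_trans ?_ (h' z hz)
      refine le_trans (mul_le_of_le_one_left (norm_nonneg _) ha) (le_max_left _ _)) (by
      intro z hz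
      rw [eval_mul, eval_C, norm_mul]
      refine le_trans ?_ (h' z hz)
      refine le_trans (mul_le_of_le_one_left (norm_nonneg _) hb) (le_max_right _ _))
    rw [logMahlerMeasure_C_mul ha0 hF', logMahlerMeasure_C_mul hb0 hN', lF, lN] at k
    have k1 : Real.log ‖a‖ ≤ 0 := Real.log_nonpos (norm_nonneg _) ha
    have k2 : Real.log ‖b‖ ≤ 0 := Real.log_nonpos (norm_nonneg _) hb
    have k3 : max (Real.log ‖a‖ + Real.log (m1 F)) (Real.log ‖b‖ + Real.log (m1 N)) ≤
        Real.log (max (m1 F) C) := max_le (by linarith) (by linarith)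
    obtain ⟨k4, k5⟩ := logW_eq P
    have k6 : Real.log (innerWeight P) ≤ Real.log C := Real.log_le_log (by linarith) hW
    linarith
  linarith

/-- the measures of the almost interlacing pairs -/
def AIM (κ : ℝ → ℝ) : Set ℝ := {x : ℝ | ∃ (F N : ℤ[X]) (a b : ℂ), F ≠ 0 ∧ N ≠ 0 ∧ ‖a‖ ≤ 1 ∧ ‖b‖ ≤ 1 ∧
  (∀ z : ℂ, ‖z‖ = 1 → max ‖aeval z F‖ ‖aeval z N‖ ≤ κ x * ‖a * aeval z F + b * aeval z N‖) ∧
  innerWeight (Polynomial.C a * toC F + Polynomial.C b * toC N) ≤ κ x ∧ m1 N ≤ κ x ∧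
  (∀ z : ℂ, 1 < ‖z‖ → aeval z F ≠ 0 ∨ aeval z N ≠ 0) ∧ x = m1 F}

theorem BC_AIM {κ : ℝ → ℝ} (hκ : Monotone κ) : BC (AIM κ) := by
  intro B
  set C : ℝ := max (κ B) 1 with hCdef
  have hC : 1 ≤ C := le_max_right _ _
  set c : ℝ := Real.log (max B C) + 3 * Real.log 2 + 6 * Real.log C with hc
  set T1 : Set ℝ := {y | ∃ P Q : ℤ[X], P ≠ 0 ∧ Q ≠ 0 ∧ IsRelPrime P Q ∧ mx1 P Q ≤ c ∧ y = m1 P}
    with hT1
  set T2 : Set ℝ := {y | ∃ n : ℕ, 1 ≤ n ∧ y = n} with hT2
  have b1 : BC T1 := by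
    intro B'
    refine ⟨c, ?_⟩
    rintro y ⟨⟨P, Q, h1, h2, h3, h4, rfl⟩, hy⟩
    exact m1_mem_LL P Q h1 h2 h3 _ h4
  have b2 : BC T2 := by
    intro B'
    refine ⟨Real.log (max B' 1), ?_⟩
    rintro y ⟨⟨n, hn, rfl⟩, hy⟩
    refine Pool.Agent.TH845.KN.nat_mem_LL n hn _ ?_
    exact Real.log_le_log (by exact_mod_cast hn) (le_max_of_le_left (Set.mem_Iio.mp hy).le)
  obtain ⟨K, hK⟩ := BC_monoid (b1.union b2) B
  refine ⟨K, ?_⟩
  rintro x ⟨⟨F, N, a, b, hF, hN, ha, hb, h, hW, hM, hz, rfl⟩, hx⟩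
  refine hK ⟨?_, hx⟩
  have hκC : κ (m1 F) ≤ C := le_max_of_le_left (hκ (Set.mem_Iio.1 hx).le)
  have hh := height F N hF hN a b ha hb C hC
    (fun z hz => (h z hz).trans (mul_le_mul_of_nonneg_right hκC (norm_nonneg _)))
    (hW.trans hκC) (hM.trans hκC)
  obtain ⟨A', B', d, hAB, hA, hB⟩ := UniqueFactorizationMonoid.exists_reduced_factors F hF N
  have hd0 : d ≠ 0 := by
    rintro rfl
    exact hF (by rw [← hA, zero_mul])
  have hA0 : A' ≠ 0 := by
    rintro rfl
    exact hF (by rw [← hA, mul_zero])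
  have hB0 : B' ≠ 0 := by
    rintro rfl
    exact hN (by rw [← hB, mul_zero])
  obtain ⟨n, hn1, hn⟩ := Pool.Agent.N772.BL.m1_nat hd0 (by
    intro z hz1 hz0
    have hA1 : aeval z F = 0 := by
      rw [← hA, map_mul, ← eval_toC, hz0, zero_mul]
    have hB1 : aeval z N = 0 := by
      rw [← hB, map_mul, ← eval_toC d, hz0, zero_mul]
    rcases hz z hz1 with h | h
    · exact h hA1
    · exact h hB1)
  rw [← hA, m1_mul, hn]
  refine Submonoid.mul_mem _ (Submonoid.subset_closure (Or.inr ⟨n, hn1, rfl⟩))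
    (Submonoid.subset_closure (Or.inl ⟨A', B', hA0, hB0, hAB, ?_, rfl⟩))
  have h1 := mx1_mul d A' B' hd0 hA0
  rw [hA, hB] at h1
  have h2 : 0 ≤ Real.log (m1 d) := Real.log_nonneg (one_le_m1 hd0)
  have h3 : Real.log (max (m1 F) C) ≤ Real.log (max B C) := by
    apply Real.log_le_log (by linarith [le_max_right (m1 F) C])
    exact max_le_max (Set.mem_Iio.1 hx).le le_rfl
  rw [hc]
  linarith

end

end Pool.Agent.V5helper5.AI
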