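import Pool.Agent.V5helper5.AI.Lat
import Pool.Agent.V5helper5.AI.Main

/-!
# Isometries of integral lattices with few negative squares
-/

set_option autoImplicit false

open Matrix Polynomial Module Filter Topology
open Pool.Agent.H261R2.CM

namespace Pool.Agent.V5helper5.AI

noncomputable section

variable {n : ℕ}

section ring

variable {R : Type} [CommRing R]

/-- the determinant is affine along rank one perturbations (proof from the starting file `H422IV/Alg1`) -/
theorem det_rank1 (M : Matrix (Fin n) (Fin n) R) (u v : Fin n → R) (t : R) :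
    (M + t • vecMulVec u v).det = (1 - t) * M.det + t * (M + vecMulVec u v).det := by
  classical
  have key : ∀ w : Fin n → R, (M + vecMulVec w v).det =
      (fromBlocks (1 : Matrix Unit Unit R) (of fun _ j => -v j) (of fun i _ => w i) M).det := by
    intro w
    rw [det_fromBlocks_one₁₁]
    congr 1
    ext i j
    simp [vecMulVec, Matrix.mul_apply]
  have hupd : ∀ w : Fin n → R,
      fromBlocks (1 : Matrix Unit Unit R) (of fun _ j => -v j) (of fun i _ => w i) M =
      updateCol (fromBlocks (1 : Matrix Unit Unit R) (of fun _ j => -v j) (of fun i _ => 0) M)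
        (Sum.inl ()) (Sum.elim (fun _ => 1) w) := by
    intro w
    ext a c
    rcases a with a | a <;> rcases c with c | c
    · simp
    · simp
    · simp
    · simp
  set Z := fromBlocks (1 : Matrix Unit Unit R) (of fun _ j => -v j) (of fun i _ => 0) M with hZ
  have h0 : M.det = (updateCol Z (Sum.inl ()) (Sum.elim (fun _ => 1) (0 : Fin n → R))).det := by
    rw [← hupd, ← key]
    simp
  have ht : M + t • vecMulVec u v = M + vecMulVec (t • u) v := by
    rw [smul_vecMulVec]
  have hsplit : (Sum.elim (fun _ => 1) (t • u) : Unit ⊕ Fin n → R) =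
      (1 - t) • Sum.elim (fun _ => 1) (0 : Fin n → R) + t • Sum.elim (fun _ => 1) u := by
    ext a
    rcases a with a | a
    · simp
    · simp
  rw [ht, key, key, hupd, hupd, hsplit, det_updateCol_add, det_updateCol_smul,
    det_updateCol_smul, ← h0]

theorem charpoly_rank1 (A : Matrix (Fin n) (Fin n) R) (u v : Fin n → R) (t : R) :
    (A - t • vecMulVec u v).charpoly =
      C (1 - t) * A.charpoly + C t * (A - vecMulVec u v).charpoly := by
  have h1 : ∀ t : R, charmatrix (A - t • vecMulVec u v) =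
      charmatrix A + C t • vecMulVec (fun i => C (u i)) (fun i => C (v i)) := by
    intro t
    ext i j : 1
    simp only [charmatrix, RingHom.mapMatrix_apply, Matrix.sub_apply, Matrix.map_apply,
      Matrix.smul_apply, smul_eq_mul, vecMulVec_apply, Matrix.add_apply, map_sub, map_mul]
    ring
  have h2 : charmatrix (A - vecMulVec u v) =
      charmatrix A + vecMulVec (fun i => C (u i)) (fun i => C (v i)) := by
    have := h1 1
    rwa [one_smul, map_one, one_smul] at this
  rw [charpoly, charpoly, charpoly, h1, h2, det_rank1]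
  simp only [map_sub, map_one]

end ring

/-! ### the forms -/

/-- the expansion property -/
theorem qf_rank1 (S : Matrix (Fin n) (Fin n) ℂ) (hS : S.IsHermitian) (e : Fin n → ℂ)
    (he : star e = e) (t : ℝ) (s : ℝ) (hs : e ⬝ᵥ (S *ᵥ e) = (s : ℂ)) (y : Fin n → ℂ) :
    qf S (y - ((t : ℂ) * (e ⬝ᵥ (S *ᵥ y))) • e) =
      qf S y - (2 * t - t ^ 2 * s) * ‖e ⬝ᵥ (S *ᵥ y)‖ ^ 2 := by
  set φ := e ⬝ᵥ (S *ᵥ y) with hφ
  have h1 : star y ⬝ᵥ (S *ᵥ e) = star φ := by
    rw [hφ, star_dotProduct, star_mulVec, hS.eq, he, ← dotProduct_mulVec]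
  have h2 : star e ⬝ᵥ (S *ᵥ y) = φ := by rw [he]
  have h3 : star e ⬝ᵥ (S *ᵥ e) = (s : ℂ) := by rw [he, hs]
  have h4 : φ * star φ = ((‖φ‖ ^ 2 : ℝ) : ℂ) := by
    have := Complex.mul_conj φ
    rw [Complex.normSq_eq_norm_sq] at this
    exact this
  have h5 : star (y - ((t : ℂ) * φ) • e) ⬝ᵥ (S *ᵥ (y - ((t : ℂ) * φ) • e)) =
      star y ⬝ᵥ (S *ᵥ y) - (((2 * t - t ^ 2 * s) * ‖φ‖ ^ 2 : ℝ) : ℂ) := by
    rw [mulVec_sub, mulVec_smul, star_sub, star_smul, sub_dotProduct, dotProduct_sub, dotProduct_sub,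
      dotProduct_smul, smul_dotProduct, smul_dotProduct, dotProduct_smul, h1, h2, h3]
    simp only [smul_eq_mul, star_mul, Complex.star_def, Complex.conj_ofReal]
    have h4' : φ * (starRingEnd ℂ) φ = ((‖φ‖ ^ 2 : ℝ) : ℂ) := h4
    have : ((((2 * t - t ^ 2 * s) * ‖φ‖ ^ 2 : ℝ)) : ℂ) = (2 * t - t ^ 2 * s) * (φ * (starRingEnd ℂ) φ) := by
      rw [h4']; push_cast; ring
    rw [this]
    ring
  unfold qf
  rw [h5, Complex.sub_re, Complex.ofReal_re]

/-- the reciprocity of the characteristic polynomial of an isometry -/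
theorem reciprocity (S G : Matrix (Fin n) (Fin n) ℂ) (hdet : S.det ≠ 0) (hG : Gᵀ * S * G = S)
    (hreal : G.map (starRingEnd ℂ) = G) (z : ℂ) (hz : ‖z‖ = 1) :
    G.det * G.charpoly.eval z = (-1) ^ n * z ^ n * (starRingEnd ℂ) (G.charpoly.eval z) := by
  have hzz : z * (starRingEnd ℂ) z = 1 := by
    rw [Complex.mul_conj, Complex.normSq_eq_norm_sq, hz]; norm_num
  have h1 : (Gᵀ * S) * (scalar (Fin n) z - G) = -((1 - z • Gᵀ) * S) := by
    rw [Matrix.mul_sub, hG, Matrix.sub_mul, one_mul, smul_mul_assoc]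
    have : (Gᵀ * S) * scalar (Fin n) z = z • (Gᵀ * S) := by
      rw [scalar_apply, ← smul_one_eq_diagonal, Matrix.mul_smul, mul_one]
    rw [this]
    abel
  have h2 := congrArg det h1
  rw [det_mul, det_mul, det_transpose, det_neg, det_mul, Fintype.card_fin] at h2
  have h3 : (1 - z • Gᵀ).det = z ^ n * (starRingEnd ℂ) (G.charpoly.eval z) := by
    rw [eval_charpoly, RingHom.map_det]
    have e1 : (starRingEnd ℂ).mapMatrix (scalar (Fin n) z - G) =
        scalar (Fin n) ((starRingEnd ℂ) z) - G := by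
      rw [map_sub, RingHom.mapMatrix_apply, RingHom.mapMatrix_apply, hreal]
      congr 1
      ext i j
      by_cases hij : i = j
      · subst hij; simp
      · simp [hij]
    rw [e1]
    have e2 : (1 - z • Gᵀ) = (z • (scalar (Fin n) ((starRingEnd ℂ) z) - G))ᵀ := by
      rw [smul_sub, transpose_sub, transpose_smul, transpose_smul]
      congr 1
      rw [scalar_apply, diagonal_transpose, ← smul_one_eq_diagonal, smul_smul, hzz, one_smul]
    rw [e2, det_transpose, det_smul, Fintype.card_fin]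
  rw [h3, ← eval_charpoly] at h2
  have h4 : S.det * (G.det * G.charpoly.eval z) =
      S.det * ((-1) ^ n * z ^ n * (starRingEnd ℂ) (G.charpoly.eval z)) := by
    linear_combination h2
  exact mul_left_cancel₀ hdet h4

/-! ### integral lattices -/

/-- the complex matrix of an integer matrix -/
def cm (S : Matrix (Fin n) (Fin n) ℤ) : Matrix (Fin n) (Fin n) ℂ := S.map (Int.castRingHom ℂ)

/-- the complex vector of an integer vector -/
def cv' (e : Fin n → ℤ) : Fin n → ℂ := fun i => (e i : ℂ)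

/-- the norm of a vector -/
def nrm (S : Matrix (Fin n) (Fin n) ℤ) (e : Fin n → ℤ) : ℤ := e ⬝ᵥ (S *ᵥ e)

/-- the number of negative eigenvalues of a symmetric matrix -/
def negSquares (S : Matrix (Fin n) (Fin n) ℤ) : ℕ :=
  ((cm S).charpoly.roots.filter (fun z => z.re < 0)).card

/-- the matrix of the isometry `s_e A` -/
def reflected (S A : Matrix (Fin n) (Fin n) ℤ) (e : Fin n → ℤ) : Matrix (Fin n) (Fin n) ℂ :=
  (1 - (2 / (nrm S e : ℂ)) • vecMulVec (cv' e) (cv' e ᵥ* cm S)) * cm A

theorem cm_herm {S : Matrix (Fin n) (Fin n) ℤ} (hS : S.IsSymm) : (cm S).IsHermitian := by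
  ext i j
  simp only [conjTranspose_apply, cm, map_apply, eq_intCast, Complex.star_def, map_intCast]
  rw [hS.apply i j]

theorem negSquares_eq {S : Matrix (Fin n) (Fin n) ℤ} (hS : S.IsSymm) (hdet : S.det ≠ 0) :
    (Finset.univ.filter fun i => (cm_herm hS).eigenvalues i ≤ 0).card = negSquares S := by
  unfold negSquares
  rw [(cm_herm hS).roots_charpoly_eq_eigenvalues, Multiset.filter_map, Multiset.card_map]
  have hd : (cm S).det ≠ 0 := by
    unfold cm
    rw [← RingHom.mapMatrix_apply, ← RingHom.map_det]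
    simpa using hdet
  have hne : ∀ i, (cm_herm hS).eigenvalues i ≠ 0 := by
    intro i h0
    apply hd
    rw [(cm_herm hS).det_eq_prod_eigenvalues]
    exact Finset.prod_eq_zero (Finset.mem_univ i) (by rw [h0]; simp)
  have : (Finset.univ.filter fun i => (cm_herm hS).eigenvalues i ≤ 0) =
      (Finset.univ.filter fun i => (cm_herm hS).eigenvalues i < 0) := by
    ext i
    simp only [Finset.mem_filter, Finset.mem_univ, true_and]
    exact ⟨fun h => lt_of_le_of_ne h (hne i), le_of_lt⟩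
  rw [this]
  rfl

section lattice

variable (S A : Matrix (Fin n) (Fin n) ℤ) (e : Fin n → ℤ)

/-- the integer matrix `(1 - e eᵀ S) A` -/
def B1 : Matrix (Fin n) (Fin n) ℤ := A - vecMulVec e ((e ᵥ* S) ᵥ* A)

/-- the companion polynomial -/
def NN : ℤ[X] := C (nrm S e - 2) * A.charpoly + C 2 * (B1 S A e).charpoly

theorem cm_mul (A B : Matrix (Fin n) (Fin n) ℤ) : cm (A * B) = cm A * cm B := by
  unfold cm; rw [Matrix.map_mul]

theorem toC_charpoly (A : Matrix (Fin n) (Fin n) ℤ) : toC A.charpoly = (cm A).charpoly := by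
  unfold toC cm; rw [charpoly_map]

theorem cv_vecMul (e : Fin n → ℤ) (A : Matrix (Fin n) (Fin n) ℤ) :
    cv' (e ᵥ* A) = cv' e ᵥ* cm A := by
  ext i
  simp [cv', cm, vecMul, dotProduct]

theorem cm_vecMulVec (u v : Fin n → ℤ) : cm (vecMulVec u v) = vecMulVec (cv' u) (cv' v) := by
  ext i j
  simp [cm, cv', vecMulVec_apply]

theorem nrm_cast : cv' e ⬝ᵥ (cm S *ᵥ cv' e) = ((nrm S e : ℝ) : ℂ) := by
  simp only [nrm, cv', cm, dotProduct, mulVec, map_apply, eq_intCast]
  push_cast
  rfl

theorem fam (t : ℂ) :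
    ((1 - t • vecMulVec (cv' e) (cv' e ᵥ* cm S)) * cm A).charpoly =
      C (1 - t) * toC A.charpoly + C t * toC (B1 S A e).charpoly := by
  have h1 : (1 - t • vecMulVec (cv' e) (cv' e ᵥ* cm S)) * cm A =
      cm A - t • vecMulVec (cv' e) ((cv' e ᵥ* cm S) ᵥ* cm A) := by
    rw [Matrix.sub_mul, one_mul, Matrix.smul_mul, vecMulVec_mul]
  have h2 : cm (B1 S A e) = cm A - vecMulVec (cv' e) ((cv' e ᵥ* cm S) ᵥ* cm A) := by
    rw [← cv_vecMul, ← cv_vecMul, ← cm_vecMulVec]
    unfold B1 cm
    ext i j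
    simp
  rw [h1, charpoly_rank1, toC_charpoly, toC_charpoly, h2]

theorem toC_NN : toC (NN S A e) =
    C ((nrm S e : ℂ) - 2) * toC A.charpoly + C 2 * toC (B1 S A e).charpoly := by
  unfold NN toC
  rw [Polynomial.map_add, Polynomial.map_mul, Polynomial.map_mul, Polynomial.map_C,
    Polynomial.map_C]
  simp only [eq_intCast, Int.cast_sub, Int.cast_ofNat]

theorem NN_reflected (hs : nrm S e ≠ 0) :
    toC (NN S A e) = C (nrm S e : ℂ) * (reflected S A e).charpoly := by
  have hs' : (nrm S e : ℂ) ≠ 0 := by exact_mod_cast hs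
  unfold reflected
  rw [fam, toC_NN, mul_add, ← mul_assoc, ← mul_assoc, ← C_mul, ← C_mul]
  congr 3
  · field_simp
  · field_simp

/-- the real number `s - 1/2` -/
theorem half_ne (s : ℤ) : ((s : ℂ) - 1 / 2) ≠ 0 := by
  intro h
  have h1 : (2 * s : ℂ) = 1 := by linear_combination 2 * h
  have h2 : (2 * s : ℤ) = 1 := by exact_mod_cast h1
  omega

theorem P_eq :
    C (-(1 / 2) : ℂ) * toC A.charpoly + C 1 * toC (NN S A e) =
      C ((nrm S e : ℂ) - 1 / 2) * ((1 - (2 / ((nrm S e : ℂ) - 1 / 2)) •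
        vecMulVec (cv' e) (cv' e ᵥ* cm S)) * cm A).charpoly := by
  have h := half_ne (nrm S e)
  rw [fam, toC_NN, mul_add (C ((nrm S e : ℂ) - 1 / 2)), ← mul_assoc (C ((nrm S e : ℂ) - 1 / 2)),
    ← mul_assoc (C ((nrm S e : ℂ) - 1 / 2)), ← C_mul, ← C_mul]
  have e1 : ((nrm S e : ℂ) - 1 / 2) * (1 - 2 / ((nrm S e : ℂ) - 1 / 2)) = (nrm S e : ℂ) - 1 / 2 - 2 := by
    rw [mul_sub, mul_one, mul_div_cancel₀ _ h]
  have e2 : ((nrm S e : ℂ) - 1 / 2) * (2 / ((nrm S e : ℂ) - 1 / 2)) = 2 := mul_div_cancel₀ _ h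
  rw [e1, e2, C_1, one_mul, ← add_assoc, ← add_mul, ← C_add]
  congr 3
  ring_nf

end lattice

end

end Pool.Agent.V5helper5.AI
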