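import Mathlib

/-!
# A bound for the Mahler measure of a sum of two polynomials

Let `P = u + v`, `|u|, |v| ≤ C |P|` on the unit circle. Then
`M(P) ≤ 8 C² W³ max(M(u), M(v))`, where `W` is the product of `1 / max(|w|, 1/2)` over the zeros `w` of `P` in the
open unit disc.
-/

set_option autoImplicit false

open Complex Real Polynomial MeasureTheory Metric InnerProductSpace

namespace Pool.Agent.V5helper5.AI

noncomputable section

/-- monotonicity of circle averages, up to finitely many points -/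
theorem ca_mono {f g : ℂ → ℝ} {R : ℝ} (hR : R ≠ 0) (hf : CircleIntegrable f 0 R)
    (hg : CircleIntegrable g 0 R) (s : Set ℂ) (hs : s.Finite)
    (h : ∀ z ∈ sphere (0:ℂ) |R|, z ∉ s → f z ≤ g z) :
    circleAverage f 0 R ≤ circleAverage g 0 R := by
  rw [circleAverage_def, circleAverage_def, smul_eq_mul, smul_eq_mul]
  apply mul_le_mul_of_nonneg_left _ (by positivity)
  apply intervalIntegral.integral_mono_ae (by positivity) hf hg
  have h1 : (circleMap 0 R ⁻¹' s).Countable := hs.countable.preimage_circleMap 0 hR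
  filter_upwards [h1.ae_notMem volume] with θ hθ
  exact h _ (circleMap_mem_sphere' 0 R θ) hθ

theorem ca_congr {f g : ℂ → ℝ} {R : ℝ} (hR : R ≠ 0) (s : Set ℂ) (hs : s.Finite)
    (h : ∀ z ∈ sphere (0:ℂ) |R|, z ∉ s → f z = g z) :
    circleAverage f 0 R = circleAverage g 0 R := by
  rw [circleAverage_def, circleAverage_def]
  congr 1
  apply intervalIntegral.integral_congr_ae
  have h1 : (circleMap 0 R ⁻¹' s).Countable := hs.countable.preimage_circleMap 0 hR
  filter_upwards [h1.ae_notMem volume] with θ hθ _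
  exact h _ (circleMap_mem_sphere' 0 R θ) hθ

theorem ca_int_congr {f g : ℂ → ℝ} {R : ℝ} (hR : R ≠ 0) (s : Set ℂ) (hs : s.Finite)
    (h : ∀ z ∈ sphere (0:ℂ) |R|, z ∉ s → f z = g z) (hf : CircleIntegrable f 0 R) :
    CircleIntegrable g 0 R := by
  have h1 : (circleMap 0 R ⁻¹' s).Countable := hs.countable.preimage_circleMap 0 hR
  refine IntervalIntegrable.congr_ae hf ?_
  apply ae_restrict_of_ae
  filter_upwards [h1.ae_notMem volume] with θ hθ
  exact h _ (circleMap_mem_sphere' 0 R θ) hθ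

/-- there is a point on the circle, outside a finite set, with at most the average value -/
theorem ca_exists {f : ℂ → ℝ} {R : ℝ} (hR : R ≠ 0) (hf : CircleIntegrable f 0 R)
    (s : Set ℂ) (hs : s.Finite) :
    ∃ z ∈ sphere (0:ℂ) |R|, z ∉ s ∧ f z ≤ circleAverage f 0 R := by
  rw [circleAverage_eq_intervalAverage]
  have h1 : (circleMap 0 R ⁻¹' s).Countable := hs.countable.preimage_circleMap 0 hR
  have h2 : (volume.restrict (Set.uIoc 0 (2 * π))) ≠ 0 := by
    intro h0
    have h3 := congrArg (fun μ : Measure ℝ => μ Set.univ) h0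
    simp only [Measure.restrict_apply MeasurableSet.univ, Set.univ_inter, Measure.coe_zero,
      Pi.zero_apply] at h3
    rw [Set.uIoc_of_le (by positivity), Real.volume_Ioc] at h3
    have : (0 : ℝ) < 2 * π - 0 := by
      have := Real.pi_pos
      linarith
    rw [ENNReal.ofReal_eq_zero] at h3
    linarith
  have h3 : (volume.restrict (Set.uIoc 0 (2 * π))) (circleMap 0 R ⁻¹' s) = 0 := by
    apply le_antisymm _ (zero_le)
    exact (Measure.restrict_apply_le _ _).trans (le_of_eq (h1.measure_zero volume))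
  have h4 : Integrable (fun θ => f (circleMap 0 R θ)) (volume.restrict (Set.uIoc 0 (2 * π))) := by
    have := hf
    unfold CircleIntegrable at this
    rw [intervalIntegrable_iff] at this
    exact this
  have : IsFiniteMeasure (volume.restrict (Set.uIoc 0 (2 * π))) := by
    refine ⟨?_⟩
    rw [Measure.restrict_apply MeasurableSet.univ, Set.univ_inter, Set.uIoc_of_le (by positivity),
      Real.volume_Ioc]
    exact ENNReal.ofReal_lt_top
  obtain ⟨θ, hθ, hle⟩ := exists_notMem_null_le_average h2 h4 h3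
  exact ⟨_, circleMap_mem_sphere' 0 R θ, hθ, hle⟩

theorem ca_msum {R : ℝ} (s : Multiset ℂ) (F : ℂ → ℂ → ℝ) (A : ℂ → ℝ)
    (h : ∀ w ∈ s, CircleIntegrable (F w) 0 R ∧ circleAverage (F w) 0 R = A w) :
    CircleIntegrable (fun z => (s.map (fun w => F w z)).sum) 0 R ∧
      circleAverage (fun z => (s.map (fun w => F w z)).sum) 0 R = (s.map A).sum := by
  induction s using Multiset.induction_on with
  | empty =>
    simp only [Multiset.map_zero, Multiset.sum_zero]
    exact ⟨circleIntegrable_const _ _ _, circleAverage_const _ _ _⟩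
  | cons a s ih =>
    obtain ⟨h1, h2⟩ := ih (fun w hw => h w (Multiset.mem_cons_of_mem hw))
    obtain ⟨h3, h4⟩ := h a (Multiset.mem_cons_self a s)
    simp only [Multiset.map_cons, Multiset.sum_cons]
    exact ⟨h3.add h1, by rw [circleAverage_fun_add h3 h1, h2, h4]⟩

/-- the Poisson average -/
def PA (z : ℂ) (f : ℂ → ℝ) : ℝ := circleAverage (fun ζ => (herglotzRieszKernel 0 z ζ).re * f ζ) 0 1

/-- the Poisson average of `log |ζ - w|` -/
def phi (z w : ℂ) : ℝ := if ‖w‖ < 1 then Real.log ‖1 - (starRingEnd ℂ) w * z‖ else Real.log ‖z - w‖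

theorem K_cont {z : ℂ} (hz : ‖z‖ < 1) :
    ContinuousOn (fun ζ => (herglotzRieszKernel 0 z ζ).re) (sphere (0:ℂ) |1|) :=
  Complex.continuous_re.comp_continuousOn
    (continuousOn_herglotzRieszKernel_sphere (by simpa using hz))

theorem PA_int {z : ℂ} (hz : ‖z‖ < 1) {f : ℂ → ℝ} (hf : CircleIntegrable f 0 1) :
    CircleIntegrable (fun ζ => (herglotzRieszKernel 0 z ζ).re * f ζ) 0 1 :=
  hf.continuousOn_smul (K_cont hz)

theorem PA_harm {z : ℂ} (hz : ‖z‖ < 1) {f : ℂ → ℝ} (hf : HarmonicOnNhd f (closedBall 0 1)) :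
    PA z f = f z :=
  hf.circleAverage_re_herglotzRieszKernel_smul (by simpa using hz)

theorem PA_const {z : ℂ} (hz : ‖z‖ < 1) (a : ℝ) : PA z (fun _ => a) = a :=
  PA_harm hz (fun _ _ => harmonicAt_const a)

theorem norm_flip {w ζ : ℂ} (hζ : ‖ζ‖ = 1) : ‖ζ - w‖ = ‖1 - (starRingEnd ℂ) w * ζ‖ := by
  have h1 : ζ * (starRingEnd ℂ) ζ = 1 := by
    rw [Complex.mul_conj, Complex.normSq_eq_norm_sq, hζ]; norm_num
  have h2 : (1 : ℂ) - (starRingEnd ℂ) w * ζ = ζ * (starRingEnd ℂ) (ζ - w) := by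
    rw [map_sub, mul_sub, h1]; ring
  rw [h2, norm_mul, hζ, one_mul, Complex.norm_conj]

theorem PA_log {z : ℂ} (hz : ‖z‖ < 1) (w : ℂ) :
    PA z (fun ζ => Real.log ‖ζ - w‖) = phi z w := by
  unfold phi
  split_ifs with h
  · have h1 : PA z (fun ζ => Real.log ‖ζ - w‖) =
        PA z (fun ζ => Real.log ‖1 - (starRingEnd ℂ) w * ζ‖) := by
      unfold PA
      apply circleAverage_congr_sphere
      intro ζ hζ
      have : ‖ζ‖ = 1 := by simpa using hζ
      simp only [norm_flip this]
    rw [h1]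
    apply PA_harm hz (f := fun ζ => Real.log ‖1 - (starRingEnd ℂ) w * ζ‖)
    intro x hx
    apply AnalyticAt.harmonicAt_log_norm (by fun_prop)
    intro h0
    have h2 : ‖(starRingEnd ℂ) w * x‖ = 1 := by
      rw [← sub_eq_zero.1 h0]; simp
    rw [norm_mul, Complex.norm_conj] at h2
    have h3 : ‖x‖ ≤ 1 := by simpa using hx
    have h4 : ‖w‖ * ‖x‖ ≤ ‖w‖ * 1 := mul_le_mul_of_nonneg_left h3 (norm_nonneg _)
    linarith
  · rcases (not_lt.1 h).eq_or_lt with h1 | h1
    · have h2 := circleAverage_re_herglotzRieszKernel_mul_log (w := z) (ρ := w) (c := 0) (R := 1)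
        (by simpa using h1.symm) (by simpa using hz)
      exact h2
    · apply PA_harm hz (f := fun ζ => Real.log ‖ζ - w‖)
      intro x hx
      apply AnalyticAt.harmonicAt_log_norm (by fun_prop)
      intro h0
      have h3 : ‖x‖ ≤ 1 := by simpa using hx
      rw [sub_eq_zero.1 h0] at h3
      linarith

/-- `log |P|` through the roots -/
theorem log_eval {P : ℂ[X]} {z : ℂ} (hz : P.eval z ≠ 0) :
    Real.log ‖P.eval z‖ = Real.log ‖P.leadingCoeff‖ + (P.roots.map (fun w => Real.log ‖z - w‖)).sum := by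
  have h1 : P.eval z = P.leadingCoeff * (P.roots.map (fun w => z - w)).prod :=
    (IsAlgClosed.splits P).eval_eq_prod_roots z
  have h2 : P.leadingCoeff ≠ 0 := by
    intro h0
    rw [leadingCoeff_eq_zero.1 h0] at hz
    simp at hz
  have h3 : ∀ s : Multiset ℂ, (∀ w ∈ s, z - w ≠ 0) →
      Real.log ‖(s.map (fun w => z - w)).prod‖ = (s.map (fun w => Real.log ‖z - w‖)).sum := by
    intro s
    induction s using Multiset.induction_on with
    | empty => simp
    | cons a s ih =>
      intro h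
      simp only [Multiset.map_cons, Multiset.prod_cons, Multiset.sum_cons, norm_mul]
      rw [Real.log_mul, ih (fun w hw => h w (Multiset.mem_cons_of_mem hw))]
      · exact norm_ne_zero_iff.2 (h a (Multiset.mem_cons_self a s))
      · rw [norm_ne_zero_iff]
        intro h0
        obtain ⟨w, hw, hw0⟩ := Multiset.mem_map.1 (Multiset.prod_eq_zero_iff.1 h0)
        exact h w (Multiset.mem_cons_of_mem hw) hw0
  have h4 : ∀ w ∈ P.roots, z - w ≠ 0 := by
    intro w hw h0
    rw [sub_eq_zero.1 h0] at hz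
    exact hz (isRoot_of_mem_roots hw)
  rw [h1, norm_mul, Real.log_mul (norm_ne_zero_iff.2 h2), h3 _ h4]
  rw [norm_ne_zero_iff]
  intro h0
  rw [h1, h0, mul_zero] at hz
  exact hz rfl

theorem rootSet_fin (P : ℂ[X]) (hP : P ≠ 0) : {z : ℂ | P.eval z = 0}.Finite := by
  have : {z : ℂ | P.eval z = 0} ⊆ (P.roots.toFinset : Set ℂ) := by
    intro z hz
    simp only [Finset.mem_coe, Multiset.mem_toFinset, mem_roots', IsRoot.def]
    exact ⟨hP, hz⟩
  exact (Finset.finite_toSet _).subset this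

theorem PA_poly {P : ℂ[X]} (hP : P ≠ 0) {z : ℂ} (hz : ‖z‖ < 1) :
    PA z (fun ζ => Real.log ‖P.eval ζ‖) = Real.log ‖P.leadingCoeff‖ + (P.roots.map (phi z)).sum := by
  obtain ⟨h1, h2⟩ := ca_msum (R := 1) P.roots
    (fun w ζ => (herglotzRieszKernel 0 z ζ).re * Real.log ‖ζ - w‖) (phi z)
    (fun w _ => ⟨PA_int hz (circleIntegrable_log_norm_sub_const 1), PA_log hz w⟩)
  have h3 : CircleIntegrable (fun ζ => (herglotzRieszKernel 0 z ζ).re *
      Real.log ‖P.leadingCoeff‖) 0 1 := PA_int hz (circleIntegrable_const _ _ _)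
  unfold PA
  rw [ca_congr one_ne_zero _ (rootSet_fin P hP) (g := fun ζ =>
    (herglotzRieszKernel 0 z ζ).re * Real.log ‖P.leadingCoeff‖ +
      (P.roots.map (fun w => (herglotzRieszKernel 0 z ζ).re * Real.log ‖ζ - w‖)).sum)]
  · rw [circleAverage_fun_add h3 h1, h2]
    congr 1
    exact PA_const hz _
  · intro ζ _ hζ
    show _ * Real.log ‖P.eval ζ‖ = _
    rw [log_eval hζ, mul_add]
    congr 1
    rw [Multiset.sum_map_mul_left]

theorem log_le_phi {z w : ℂ} (hz : ‖z‖ < 1) (hzw : z ≠ w) : Real.log ‖z - w‖ ≤ phi z w := by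
  unfold phi
  split_ifs with h
  · apply Real.log_le_log (norm_pos_iff.2 (sub_ne_zero.2 hzw))
    rw [← abs_of_nonneg (norm_nonneg (z - w)), ← abs_of_nonneg (norm_nonneg (1 - _)), ← sq_le_sq]
    rw [← Complex.normSq_eq_norm_sq, ← Complex.normSq_eq_norm_sq, Complex.normSq_sub,
      Complex.normSq_sub]
    have h1 : ((1 : ℂ) * (starRingEnd ℂ) ((starRingEnd ℂ) w * z)).re = (z * (starRingEnd ℂ) w).re := by
      rw [one_mul, Complex.conj_re, mul_comm]
    rw [h1, Complex.normSq_mul, Complex.normSq_conj, Complex.normSq_one]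
    have h2 : Complex.normSq z < 1 := by
      rw [Complex.normSq_eq_norm_sq]; nlinarith [norm_nonneg z]
    have h3 : Complex.normSq w < 1 := by
      rw [Complex.normSq_eq_norm_sq]; nlinarith [norm_nonneg w]
    nlinarith [mul_pos (sub_pos.2 h2) (sub_pos.2 h3)]
  · exact le_rfl

theorem log_le_PA {P : ℂ[X]} {z : ℂ} (hz : ‖z‖ < 1) (h0 : P.eval z ≠ 0) :
    Real.log ‖P.eval z‖ ≤ PA z (fun ζ => Real.log ‖P.eval ζ‖) := by
  have hP : P ≠ 0 := by rintro rfl; simp at h0
  rw [PA_poly hP hz, log_eval h0]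
  gcongr
  apply Multiset.sum_map_le_sum_map
  intro w hw
  apply log_le_phi hz
  rintro rfl
  exact h0 (isRoot_of_mem_roots hw)

/-- the logarithm of the truncated measure of the inner zeros -/
def logW (P : ℂ[X]) : ℝ :=
  ((P.roots.filter (fun w => ‖w‖ < 1)).map (fun w => -Real.log (max ‖w‖ (1/2)))).sum

theorem exists_point {P : ℂ[X]} (hP : P ≠ 0) : ∃ z : ℂ, ‖z‖ = 1 / 2 ∧ P.eval z ≠ 0 ∧
    PA z (fun ζ => Real.log ‖P.eval ζ‖) ≤ Real.log ‖P.eval z‖ + logW P := by
  obtain ⟨h1, h2⟩ := ca_msum (R := 1 / 2) (P.roots.filter (fun w => ‖w‖ < 1))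
    (fun w z => Real.log ‖1 - (starRingEnd ℂ) w * z‖ - Real.log ‖z - w‖)
    (fun w => -Real.log (max ‖w‖ (1/2))) (by
      intro w hw
      have hw1 : ‖w‖ < 1 := (Multiset.mem_filter.1 hw).2
      have hc : ∀ x ∈ closedBall (0:ℂ) (1/2), 1 - (starRingEnd ℂ) w * x ≠ 0 := by
        intro x hx h0
        have h2 : ‖(starRingEnd ℂ) w * x‖ = 1 := by
          rw [← sub_eq_zero.1 h0]; simp
        rw [norm_mul, Complex.norm_conj] at h2
        have h3 : ‖x‖ ≤ 1 / 2 := by simpa using hx
        have h4 : ‖w‖ * ‖x‖ ≤ ‖w‖ * (1/2) := mul_le_mul_of_nonneg_left h3 (norm_nonneg _)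
        linarith
      have hharm : HarmonicOnNhd (fun z : ℂ => Real.log ‖1 - (starRingEnd ℂ) w * z‖)
          (closedBall 0 |1 / 2|) := by
        intro x hx
        apply AnalyticAt.harmonicAt_log_norm (by fun_prop)
        apply hc
        rwa [abs_of_pos (by norm_num)] at hx
      have hi1 : CircleIntegrable (fun z : ℂ => Real.log ‖1 - (starRingEnd ℂ) w * z‖) 0 (1/2) := by
        apply ContinuousOn.circleIntegrable (by norm_num)
        apply ContinuousOn.log
        · fun_prop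
        · intro x hx
          rw [norm_ne_zero_iff]
          exact hc x (sphere_subset_closedBall hx)
      have hi2 : CircleIntegrable (fun z : ℂ => Real.log ‖z - w‖) 0 (1/2) :=
        circleIntegrable_log_norm_sub_const _
      refine ⟨hi1.sub hi2, ?_⟩
      rw [circleAverage_fun_sub hi1 hi2, hharm.circleAverage_eq,
        circleAverage_log_norm_sub_const_eq_log_radius_add_posLog (by norm_num)]
      simp only [mul_zero, sub_zero, norm_one, Real.log_one, zero_sub, norm_neg, neg_inj]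
      rcases le_total (1 / 2) ‖w‖ with h | h
      · rw [max_eq_left h, posLog_eq_log (by rw [abs_of_nonneg (by positivity)]; linarith),
          Real.log_mul (by norm_num) (by linarith [norm_nonneg w]), Real.log_inv]
        ring
      · rw [max_eq_right h, posLog_eq_zero_iff _ |>.2]
        · ring
        · rw [abs_of_nonneg (by positivity)]; linarith)
  obtain ⟨z, hz, hzr, hle⟩ := ca_exists (by norm_num) h1 {z | P.eval z = 0} (rootSet_fin P hP)
  have hzn : ‖z‖ = 1 / 2 := by
    have : ‖z‖ = |1 / 2| := by simpa using hz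
    rwa [abs_of_pos (by norm_num)] at this
  refine ⟨z, hzn, hzr, ?_⟩
  rw [h2] at hle
  rw [PA_poly hP (by rw [hzn]; norm_num), log_eval hzr]
  unfold logW
  have h3 : (P.roots.map (phi z)).sum = (P.roots.map (fun w => Real.log ‖z - w‖)).sum +
      ((P.roots.filter (fun w => ‖w‖ < 1)).map
        (fun w => Real.log ‖1 - (starRingEnd ℂ) w * z‖ - Real.log ‖z - w‖)).sum := by
    generalize P.roots = s
    induction s using Multiset.induction_on with
    | empty => simp
    | cons a s ih =>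
      by_cases ha : ‖a‖ < 1
      · have hphi : phi z a = Real.log ‖1 - (starRingEnd ℂ) a * z‖ := by
          unfold phi; rw [if_pos ha]
        rw [Multiset.filter_cons_of_pos (p := fun w => ‖w‖ < 1) _ ha, Multiset.map_cons,
          Multiset.sum_cons, Multiset.map_cons, Multiset.sum_cons, Multiset.map_cons,
          Multiset.sum_cons, ih, hphi]
        ring
      · have hphi : phi z a = Real.log ‖z - a‖ := by
          unfold phi; rw [if_neg ha]
        rw [Multiset.filter_cons_of_neg (p := fun w => ‖w‖ < 1) _ ha, Multiset.map_cons,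
          Multiset.sum_cons, Multiset.map_cons, Multiset.sum_cons, ih, hphi]
        ring
  rw [h3]
  linarith

theorem poly_int (P : ℂ[X]) : CircleIntegrable (fun ζ => Real.log ‖P.eval ζ‖) 0 1 :=
  P.intervalIntegrable_mahlerMeasure

theorem harnack {P u : ℂ[X]} {C : ℝ} (hC : 1 ≤ C) (hP : P ≠ 0) (hu : u ≠ 0)
    (h1 : ∀ z : ℂ, ‖z‖ = 1 → ‖u.eval z‖ ≤ C * ‖P.eval z‖) {z : ℂ} (hz : ‖z‖ = 1 / 2) :
    PA z (fun ζ => Real.log ‖u.eval ζ‖) - PA z (fun ζ => Real.log ‖P.eval ζ‖) - Real.log C ≤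
      1 / 3 * (u.logMahlerMeasure - P.logMahlerMeasure - Real.log C) := by
  have hz1 : ‖z‖ < 1 := by rw [hz]; norm_num
  have iu := poly_int u
  have iP := poly_int P
  have ic : CircleIntegrable (fun _ : ℂ => Real.log C) 0 1 := circleIntegrable_const _ _ _
  have ig : CircleIntegrable (fun ζ => Real.log ‖u.eval ζ‖ - Real.log ‖P.eval ζ‖ - Real.log C) 0 1 :=
    (iu.sub iP).sub ic
  have e1 : PA z (fun ζ => Real.log ‖u.eval ζ‖) - PA z (fun ζ => Real.log ‖P.eval ζ‖) - Real.log C =
      PA z (fun ζ => Real.log ‖u.eval ζ‖ - Real.log ‖P.eval ζ‖ - Real.log C) := by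
    have e0 : Real.log C = PA z (fun _ => Real.log C) := (PA_const hz1 (Real.log C)).symm
    conv_lhs => rw [e0]
    unfold PA
    have i1 : CircleIntegrable (fun ζ => (herglotzRieszKernel 0 z ζ).re * Real.log ‖u.eval ζ‖ -
        (herglotzRieszKernel 0 z ζ).re * Real.log ‖P.eval ζ‖) 0 1 :=
      (PA_int hz1 iu).sub (PA_int hz1 iP)
    rw [← circleAverage_fun_sub (PA_int hz1 iu) (PA_int hz1 iP), ← circleAverage_fun_sub
      i1 (PA_int hz1 ic)]
    congr 1
    ext ζ
    ring
  have e2 : 1 / 3 * (u.logMahlerMeasure - P.logMahlerMeasure - Real.log C) =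
      circleAverage (fun ζ => (1 / 3 : ℝ) *
        (Real.log ‖u.eval ζ‖ - Real.log ‖P.eval ζ‖ - Real.log C)) 0 1 := by
    have h3 := circleAverage_fun_smul (a := (1/3 : ℝ)) (f := fun ζ => (Real.log ‖u.eval ζ‖ - Real.log ‖P.eval ζ‖ - Real.log C))
      (c := 0) (R := 1)
    simp only [smul_eq_mul] at h3
    have i1 : CircleIntegrable (fun ζ => Real.log ‖u.eval ζ‖ - Real.log ‖P.eval ζ‖) 0 1 :=
      iu.sub iP
    rw [h3, circleAverage_fun_sub i1 ic, circleAverage_fun_sub iu iP, circleAverage_const,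
      logMahlerMeasure_def, logMahlerMeasure_def]
  rw [e1, e2]
  unfold PA
  apply ca_mono one_ne_zero (PA_int hz1 ig) _ {z | (P * u).eval z = 0}
    (rootSet_fin _ (mul_ne_zero hP hu))
  · intro ζ hζ hr
    have hζ1 : ‖ζ‖ = 1 := by simpa using hζ
    have hr' : (P * u).eval ζ ≠ 0 := hr
    rw [eval_mul] at hr'
    have hPζ := left_ne_zero_of_mul hr'
    have huζ := right_ne_zero_of_mul hr'
    have hneg : Real.log ‖u.eval ζ‖ - Real.log ‖P.eval ζ‖ - Real.log C ≤ 0 := by
      have := Real.log_le_log (norm_pos_iff.2 huζ) (h1 ζ hζ1)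
      rw [Real.log_mul (by linarith) (norm_ne_zero_iff.2 hPζ)] at this
      linarith
    have hK : 1 / 3 ≤ (herglotzRieszKernel 0 z ζ).re := by
      have h4 := le_re_herglotzRieszKernel (c := 0) (R := 1) (z := ζ) (w := z)
        (by simpa using hζ1) (by simpa using hz1)
      rw [herglotzRieszKernel_def]
      refine le_trans ?_ h4
      rw [sub_zero, hz]
      norm_num
    exact mul_le_mul_of_nonpos_right hK hneg
  · exact ig.const_fun_smul (a := (1/3 : ℝ))

theorem key_aux {P u : ℂ[X]} {C : ℝ} (hC : 1 ≤ C) (hP : P ≠ 0) (hu : u ≠ 0)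
    (h1 : ∀ z : ℂ, ‖z‖ = 1 → ‖u.eval z‖ ≤ C * ‖P.eval z‖) {z : ℂ} (hz : ‖z‖ = 1 / 2)
    (hPz : P.eval z ≠ 0)
    (hW : PA z (fun ζ => Real.log ‖P.eval ζ‖) ≤ Real.log ‖P.eval z‖ + logW P)
    (hle : ‖P.eval z‖ ≤ 2 * ‖u.eval z‖) :
    P.logMahlerMeasure ≤ u.logMahlerMeasure + 3 * Real.log 2 + 2 * Real.log C + 3 * logW P := by
  have hz1 : ‖z‖ < 1 := by rw [hz]; norm_num
  have huz : u.eval z ≠ 0 := by
    intro h0
    rw [h0, norm_zero, mul_zero] at hle
    exact hPz (norm_le_zero_iff.1 hle)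
  have h2 := log_le_PA hz1 huz
  have h3 := harnack hC hP hu h1 hz
  have h4 : Real.log ‖P.eval z‖ ≤ Real.log 2 + Real.log ‖u.eval z‖ := by
    rw [← Real.log_mul (by norm_num) (norm_ne_zero_iff.2 huz)]
    exact Real.log_le_log (norm_pos_iff.2 hPz) hle
  linarith

theorem key {P u v : ℂ[X]} {C : ℝ} (hC : 1 ≤ C) (hP : P ≠ 0) (hu : u ≠ 0) (hv : v ≠ 0)
    (hs : u + v = P) (h1 : ∀ z : ℂ, ‖z‖ = 1 → ‖u.eval z‖ ≤ C * ‖P.eval z‖)
    (h2 : ∀ z : ℂ, ‖z‖ = 1 → ‖v.eval z‖ ≤ C * ‖P.eval z‖) :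
    P.logMahlerMeasure ≤ max u.logMahlerMeasure v.logMahlerMeasure + 3 * Real.log 2 +
      2 * Real.log C + 3 * logW P := by
  obtain ⟨z, hz, hPz, hW⟩ := exists_point hP
  have h3 : ‖P.eval z‖ ≤ ‖u.eval z‖ + ‖v.eval z‖ := by
    rw [← hs, eval_add]; exact norm_add_le _ _
  rcases le_total ‖u.eval z‖ ‖v.eval z‖ with h | h
  · have := key_aux hC hP hv h2 hz hPz hW (by linarith)
    have h4 := le_max_right u.logMahlerMeasure v.logMahlerMeasure
    linarith
  · have := key_aux hC hP hu h1 hz hPz hW (by linarith)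
    have h4 := le_max_left u.logMahlerMeasure v.logMahlerMeasure
    linarith

end

end Pool.Agent.V5helper5.AI
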